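import Mathlib

/-!
# The propositional ontology `L1` and translations into modal logics

Definitions of the logic `L1`, of normal modal logics and of the translations `t_F`, and the
translation given by `F(x, y) = ¬x ∧ ((¬y ∧ □(x ↔ y)) ∨ (y ∧ ◇(x ∧ y)))`.
-/

set_option autoImplicit false

namespace Pool.Agent.X228.Ontology

/-! ## The logic `L1` -/

/-- Formulas of `L1`: the atoms are `ε a b` for name variables `a, b : ℕ`. -/
inductive LForm : Type where
  | eps (a b : ℕ) : LForm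
  | neg (φ : LForm) : LForm
  | or (φ ψ : LForm) : LForm

/-- Implication (abbreviation). -/
def LForm.imp (φ ψ : LForm) : LForm := .or (.neg φ) ψ

/-- Conjunction (abbreviation). -/
def LForm.and (φ ψ : LForm) : LForm := .neg (.or (.neg φ) (.neg ψ))

/-- Instances of propositional tautologies in the language of `L1`. -/
def LTaut (φ : LForm) : Prop :=
  ∀ v : LForm → Prop, (∀ ψ, v (.neg ψ) ↔ ¬ v ψ) → (∀ ψ χ, v (.or ψ χ) ↔ v ψ ∨ v χ) → v φ

/-- The theorems of the Hilbert system `L1`. -/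
inductive L1 : LForm → Prop
  | taut (φ : LForm) : LTaut φ → L1 φ
  | ax1 (a b : ℕ) : L1 ((LForm.eps a b).imp (.eps a a))
  | ax2 (a b c : ℕ) : L1 (((LForm.eps a b).and (.eps b c)).imp (.eps a c))
  | ax3 (a b c : ℕ) : L1 (((LForm.eps a b).and (.eps b c)).imp (.eps b a))
  | mp (φ ψ : LForm) : L1 φ → L1 (φ.imp ψ) → L1 ψ

/-! ## Modal logics -/

/-- Modal formulas with propositional variables from `V`. -/
inductive MForm (V : Type) : Type where
  | var (p : V) : MForm V
  | neg (φ : MForm V) : MForm V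
  | or (φ ψ : MForm V) : MForm V
  | box (φ : MForm V) : MForm V

namespace MForm
variable {V : Type}

/-- Implication. -/
def imp (φ ψ : MForm V) : MForm V := .or (.neg φ) ψ
/-- Conjunction. -/
def and (φ ψ : MForm V) : MForm V := .neg (.or (.neg φ) (.neg ψ))
/-- Equivalence. -/
def iff (φ ψ : MForm V) : MForm V := (φ.imp ψ).and (ψ.imp φ)
/-- Diamond. -/
def dia (φ : MForm V) : MForm V := .neg (.box (.neg φ))

/-- Uniform substitution. -/
def subst {W : Type} (σ : V → MForm W) : MForm V → MForm W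
  | .var p => σ p
  | .neg φ => .neg (φ.subst σ)
  | .or φ ψ => .or (φ.subst σ) (ψ.subst σ)
  | .box φ => .box (φ.subst σ)

end MForm

/-- Instances of propositional tautologies in the modal language. -/
def MTaut (φ : MForm ℕ) : Prop :=
  ∀ v : MForm ℕ → Prop, (∀ ψ, v (.neg ψ) ↔ ¬ v ψ) → (∀ ψ χ, v (.or ψ χ) ↔ v ψ ∨ v χ) → v φ

/-- Normal modal logics: sets of formulas containing `K` and closed under modus ponens,
necessitation and uniform substitution. -/
structure IsNormal (Λ : Set (MForm ℕ)) : Prop where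
  taut : ∀ φ, MTaut φ → φ ∈ Λ
  k : ∀ φ ψ : MForm ℕ, (MForm.imp (.box (φ.imp ψ)) (MForm.imp (.box φ) (.box ψ))) ∈ Λ
  mp : ∀ φ ψ : MForm ℕ, φ ∈ Λ → φ.imp ψ ∈ Λ → ψ ∈ Λ
  nec : ∀ φ : MForm ℕ, φ ∈ Λ → MForm.box φ ∈ Λ
  subst : ∀ (σ : ℕ → MForm ℕ) (φ : MForm ℕ), φ ∈ Λ → φ.subst σ ∈ Λ

/-- The smallest normal modal logic containing the formulas in `A`. -/
def smallestNormal (A : Set (MForm ℕ)) : Set (MForm ℕ) :=
  {φ | ∀ Λ : Set (MForm ℕ), IsNormal Λ → A ⊆ Λ → φ ∈ Λ}

theorem smallestNormal_isNormal (A : Set (MForm ℕ)) : IsNormal (smallestNormal A) where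
  taut φ h Λ hΛ _ := hΛ.taut φ h
  k φ ψ Λ hΛ _ := hΛ.k φ ψ
  mp φ ψ h1 h2 Λ hΛ hA := hΛ.mp φ ψ (h1 Λ hΛ hA) (h2 Λ hΛ hA)
  nec φ h Λ hΛ hA := hΛ.nec φ (h Λ hΛ hA)
  subst σ φ h Λ hΛ hA := hΛ.subst σ φ (h Λ hΛ hA)

/-- The translation `t_F`, where `F(x, y)` has the two variables `0, 1 : Fin 2` and `pv a = p_a`. -/
def trans (F : MForm (Fin 2)) (pv : ℕ → ℕ) : LForm → MForm ℕ
  | .eps a b => F.subst ![.var (pv a), .var (pv b)]
  | .neg φ => .neg (trans F pv φ)
  | .or φ ψ => .or (trans F pv φ) (trans F pv ψ)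

/-- `F(x, y) = ¬x ∧ ((¬y ∧ □(x ↔ y)) ∨ (y ∧ ◇(x ∧ y)))` -/
def F0 : MForm (Fin 2) :=
  MForm.and (.neg (.var 0)) (.or (MForm.and (.neg (.var 1)) (.box (MForm.iff (.var 0) (.var 1))))
    (MForm.and (.var 1) (MForm.dia (MForm.and (.var 0) (.var 1)))))

/-! ## Soundness in every normal modal logic -/

section sound
variable {Λ : Set (MForm ℕ)}

theorem IsNormal.mp' (h : IsNormal Λ) {φ ψ : MForm ℕ} (h1 : φ ∈ Λ) (h2 : MTaut (φ.imp ψ)) :
    ψ ∈ Λ := h.mp φ ψ h1 (h.taut _ h2)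

theorem IsNormal.mp2 (h : IsNormal Λ) {φ ψ χ : MForm ℕ} (h1 : φ ∈ Λ) (h1' : ψ ∈ Λ)
    (h2 : MTaut (φ.imp (ψ.imp χ))) : χ ∈ Λ := h.mp _ _ h1' (h.mp _ _ h1 (h.taut _ h2))

theorem v_imp {v : MForm ℕ → Prop} (hn : ∀ ψ, v (.neg ψ) ↔ ¬ v ψ)
    (ho : ∀ ψ χ, v (.or ψ χ) ↔ v ψ ∨ v χ) (φ ψ : MForm ℕ) : v (φ.imp ψ) ↔ (v φ → v ψ) := by
  simp only [MForm.imp, hn, ho]; tauto

theorem v_and {v : MForm ℕ → Prop} (hn : ∀ ψ, v (.neg ψ) ↔ ¬ v ψ)
    (ho : ∀ ψ χ, v (.or ψ χ) ↔ v ψ ∨ v χ) (φ ψ : MForm ℕ) : v (φ.and ψ) ↔ (v φ ∧ v ψ) := by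
  simp only [MForm.and, hn, ho]; tauto

theorem v_iff {v : MForm ℕ → Prop} (hn : ∀ ψ, v (.neg ψ) ↔ ¬ v ψ)
    (ho : ∀ ψ χ, v (.or ψ χ) ↔ v ψ ∨ v χ) (φ ψ : MForm ℕ) : v (φ.iff ψ) ↔ (v φ ↔ v ψ) := by
  simp only [MForm.iff, v_and hn ho, v_imp hn ho]; tauto

theorem v_dia {v : MForm ℕ → Prop} (hn : ∀ ψ, v (.neg ψ) ↔ ¬ v ψ)
    (φ : MForm ℕ) : v (φ.dia) ↔ ¬ v (.box (.neg φ)) := by
  simp only [MForm.dia, hn]

/-- If `A ∧ B → C` is a tautology, then `□A → (□B → □C)` is in `Λ`. -/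
theorem IsNormal.box2 (h : IsNormal Λ) {A B C : MForm ℕ} (h1 : MTaut (A.imp (B.imp C))) :
    MForm.imp (.box A) (MForm.imp (.box B) (.box C)) ∈ Λ := by
  have h2 := h.nec _ (h.taut _ h1)
  have h3 := h.mp _ _ h2 (h.k A (B.imp C))
  have h4 := h.k B C
  refine h.mp2 h3 h4 ?_
  intro v hn ho
  simp only [v_imp hn ho]
  tauto

theorem trans_eps (pv : ℕ → ℕ) (a b : ℕ) : trans F0 pv (.eps a b) =
    MForm.and (.neg (.var (pv a))) (.or (MForm.and (.neg (.var (pv b)))
      (.box (MForm.iff (.var (pv a)) (.var (pv b)))))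
    (MForm.and (.var (pv b)) (MForm.dia (MForm.and (.var (pv a)) (.var (pv b)))))) := rfl

theorem trans_imp (F : MForm (Fin 2)) (pv : ℕ → ℕ) (φ ψ : LForm) :
    trans F pv (φ.imp ψ) = (trans F pv φ).imp (trans F pv ψ) := rfl

theorem trans_and (F : MForm (Fin 2)) (pv : ℕ → ℕ) (φ ψ : LForm) :
    trans F pv (φ.and ψ) = (trans F pv φ).and (trans F pv ψ) := rfl

theorem sound (h : IsNormal Λ) (pv : ℕ → ℕ) {φ : LForm} (hφ : L1 φ) : trans F0 pv φ ∈ Λ := by
  induction hφ with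
  | taut φ hφ =>
    apply h.taut
    intro v hn ho
    exact hφ (fun ψ => v (trans F0 pv ψ)) (fun ψ => hn _) (fun ψ χ => ho _ _)
  | ax1 a b =>
    have h1 : MForm.box (MForm.iff (.var (pv a)) (.var (pv a))) ∈ Λ := by
      apply h.nec
      apply h.taut
      intro v hn ho
      rw [v_iff hn ho]
    refine h.mp' h1 ?_
    intro v hn ho
    rw [trans_imp, trans_eps, trans_eps]
    simp only [v_imp hn ho, v_and hn ho, hn, ho]
    tauto
  | ax2 a b c =>
    have h1 : MForm.imp (.box (MForm.iff (.var (pv a)) (.var (pv b))))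
        (MForm.imp (.box (MForm.iff (.var (pv b)) (.var (pv c))))
          (.box (MForm.iff (.var (pv a)) (.var (pv c))))) ∈ Λ := by
      apply h.box2
      intro v hn ho
      simp only [v_imp hn ho, v_iff hn ho]
      tauto
    have h2 : MForm.imp (.box (MForm.iff (.var (pv a)) (.var (pv b))))
        (MForm.imp (.box (.neg (MForm.and (.var (pv a)) (.var (pv c)))))
          (.box (.neg (MForm.and (.var (pv b)) (.var (pv c)))))) ∈ Λ := by
      apply h.box2
      intro v hn ho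
      simp only [v_imp hn ho, v_iff hn ho, v_and hn ho, hn]
      tauto
    refine h.mp2 h1 h2 ?_
    intro v hn ho
    rw [trans_imp, trans_and, trans_eps, trans_eps, trans_eps]
    simp only [v_imp hn ho, v_and hn ho, v_dia hn, hn, ho]
    tauto
  | ax3 a b c =>
    have h1 : MForm.imp (.box (MForm.iff (.var (pv a)) (.var (pv b))))
        (MForm.imp (.box (MForm.iff (.var (pv a)) (.var (pv b))))
          (.box (MForm.iff (.var (pv b)) (.var (pv a))))) ∈ Λ := by
      apply h.box2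
      intro v hn ho
      simp only [v_imp hn ho, v_iff hn ho]
      tauto
    refine h.mp' h1 ?_
    intro v hn ho
    rw [trans_imp, trans_and, trans_eps, trans_eps, trans_eps]
    simp only [v_imp hn ho, v_and hn ho, v_dia hn, hn, ho]
    tauto
  | mp φ ψ _ _ ih1 ih2 => exact h.mp _ _ ih1 ih2

end sound

/-! ## Completeness of `L1` for valuations -/

/-- Boolean valuations satisfying the axioms of `L1`. -/
structure IsVal (v : LForm → Prop) : Prop where
  neg : ∀ ψ, v (.neg ψ) ↔ ¬ v ψ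
  or : ∀ ψ χ, v (.or ψ χ) ↔ v ψ ∨ v χ
  ax1 : ∀ a b, v (.eps a b) → v (.eps a a)
  ax2 : ∀ a b c, v (.eps a b) → v (.eps b c) → v (.eps a c)
  ax3 : ∀ a b c, v (.eps a b) → v (.eps b c) → v (.eps b a)

theorem lv_imp {v : LForm → Prop} (hn : ∀ ψ, v (.neg ψ) ↔ ¬ v ψ)
    (ho : ∀ ψ χ, v (.or ψ χ) ↔ v ψ ∨ v χ) (φ ψ : LForm) : v (φ.imp ψ) ↔ (v φ → v ψ) := by
  simp only [LForm.imp, hn, ho]; tauto

theorem lv_and {v : LForm → Prop} (hn : ∀ ψ, v (.neg ψ) ↔ ¬ v ψ)
    (ho : ∀ ψ χ, v (.or ψ χ) ↔ v ψ ∨ v χ) (φ ψ : LForm) : v (φ.and ψ) ↔ (v φ ∧ v ψ) := by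
  simp only [LForm.and, hn, ho]; tauto

/-- Every non-theorem of `L1` is refuted by a valuation. -/
theorem exists_val {φ : LForm} (hφ : ¬ L1 φ) : ∃ v : LForm → Prop, IsVal v ∧ ¬ v φ := by
  -- a maximal theory not containing `φ`
  let P : Set (Set LForm) := {M | {ψ | L1 ψ} ⊆ M ∧ (∀ ψ χ, ψ ∈ M → LForm.imp ψ χ ∈ M → χ ∈ M) ∧
    φ ∉ M}
  obtain ⟨M, hM0, hM⟩ := zorn_subset_nonempty P (by
    intro c hc hchain hne
    refine ⟨⋃₀ c, ⟨?_, ?_, ?_⟩, fun s hs => Set.subset_sUnion_of_mem hs⟩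
    · obtain ⟨s, hs⟩ := hne
      exact (hc hs).1.trans (Set.subset_sUnion_of_mem hs)
    · rintro ψ χ ⟨s, hs, h1⟩ ⟨t, ht, h2⟩
      rcases hchain.total hs ht with h | h
      · exact ⟨t, ht, (hc ht).2.1 ψ χ (h h1) h2⟩
      · exact ⟨s, hs, (hc hs).2.1 ψ χ h1 (h h2)⟩
    · rintro ⟨s, hs, h1⟩
      exact (hc hs).2.2 h1) {ψ | L1 ψ} ⟨subset_rfl, fun ψ χ h1 h2 => .mp ψ χ h1 h2, hφ⟩
  obtain ⟨⟨hM1, hM2, hM3⟩, hmax⟩ := hM
  have ht : ∀ ψ, LTaut ψ → ψ ∈ M := fun ψ h => hM1 (.taut ψ h)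
  have mp1 : ∀ {ψ χ : LForm}, ψ ∈ M → LTaut (ψ.imp χ) → χ ∈ M :=
    fun h1 h2 => hM2 _ _ h1 (ht _ h2)
  have mp2 : ∀ {ψ χ ξ : LForm}, ψ ∈ M → χ ∈ M → LTaut (ψ.imp (χ.imp ξ)) → ξ ∈ M :=
    fun h1 h2 h3 => hM2 _ _ h2 (hM2 _ _ h1 (ht _ h3))
  have ext : ∀ ψ, ψ ∉ M → LForm.imp ψ φ ∈ M := by
    intro ψ hψ
    by_contra hcon
    have hmem : {χ | LForm.imp ψ χ ∈ M} ∈ P := by
      refine ⟨?_, ?_, hcon⟩
      · intro χ hχ
        refine mp1 (hM1 hχ) ?_
        intro v hn ho
        simp only [lv_imp hn ho]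
        tauto
      · intro χ ξ h1 h2
        refine mp2 h1 h2 ?_
        intro v hn ho
        simp only [lv_imp hn ho]
        tauto
    have hsub : M ⊆ {χ | LForm.imp ψ χ ∈ M} := by
      intro χ hχ
      refine mp1 hχ ?_
      intro v hn ho
      simp only [lv_imp hn ho]
      tauto
    have h3 := hmax hmem hsub
    apply hψ
    apply h3
    apply ht
    intro v hn ho
    simp only [lv_imp hn ho]
    tauto
  have hneg : ∀ ψ, LForm.neg ψ ∈ M ↔ ψ ∉ M := by
    intro ψ
    constructor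
    · intro h1 h2
      apply hM3
      refine mp2 h1 h2 ?_
      intro v hn ho
      simp only [lv_imp hn ho, hn]
      tauto
    · intro h1
      by_contra h2
      apply hM3
      refine mp2 (ext _ h1) (ext _ h2) ?_
      intro v hn ho
      simp only [lv_imp hn ho, hn]
      tauto
  refine ⟨fun ψ => ψ ∈ M, ⟨hneg, ?_, ?_, ?_, ?_⟩, hM3⟩
  · intro ψ χ
    constructor
    · intro h1
      by_contra h2
      push Not at h2
      apply hM3
      refine hM2 _ _ h1 (mp2 (ext _ h2.1) (ext _ h2.2) ?_)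
      intro v hn ho
      simp only [lv_imp hn ho, ho]
      tauto
    · rintro (h1 | h1)
      · refine mp1 h1 ?_
        intro v hn ho
        simp only [lv_imp hn ho, ho]
        tauto
      · refine mp1 h1 ?_
        intro v hn ho
        simp only [lv_imp hn ho, ho]
        tauto
  · intro a b h
    exact hM2 _ _ h (hM1 (.ax1 a b))
  · intro a b c h1 h2
    refine hM2 _ _ ?_ (hM1 (.ax2 a b c))
    refine mp2 h1 h2 ?_
    intro v hn ho
    simp only [lv_imp hn ho, lv_and hn ho]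
    tauto
  · intro a b c h1 h2
    refine hM2 _ _ ?_ (hM1 (.ax3 a b c))
    refine mp2 h1 h2 ?_
    intro v hn ho
    simp only [lv_imp hn ho, lv_and hn ho]
    tauto

/-! ## Kripke semantics -/

/-- Truth at a world. -/
def sat {W : Type} (R : W → W → Prop) (V : ℕ → W → Prop) : MForm ℕ → W → Prop
  | .var p => V p
  | .neg φ => fun w => ¬ sat R V φ w
  | .or φ ψ => fun w => sat R V φ w ∨ sat R V ψ w
  | .box φ => fun w => ∀ u, R w u → sat R V φ u

theorem sat_subst {W : Type} (R : W → W → Prop) (V : ℕ → W → Prop) (σ : ℕ → MForm ℕ)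
    (φ : MForm ℕ) (w : W) :
    sat R V (φ.subst σ) w ↔ sat R (fun p u => sat R V (σ p) u) φ w := by
  induction φ generalizing w with
  | var p => exact Iff.rfl
  | neg φ ih => exact not_congr (ih w)
  | or φ ψ ih1 ih2 => exact or_congr (ih1 w) (ih2 w)
  | box φ ih => exact forall₂_congr fun u _ => ih u

/-- The logic of a frame. -/
def logicOf {W : Type} (R : W → W → Prop) : Set (MForm ℕ) :=
  {φ | ∀ (V : ℕ → W → Prop) (w : W), sat R V φ w}

theorem sat_imp {W : Type} (R : W → W → Prop) (V : ℕ → W → Prop) (φ ψ : MForm ℕ) (w : W) :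
    sat R V (φ.imp ψ) w ↔ (sat R V φ w → sat R V ψ w) := by
  simp only [MForm.imp, sat]; tauto

theorem sat_and {W : Type} (R : W → W → Prop) (V : ℕ → W → Prop) (φ ψ : MForm ℕ) (w : W) :
    sat R V (φ.and ψ) w ↔ (sat R V φ w ∧ sat R V ψ w) := by
  simp only [MForm.and, sat]; tauto

theorem sat_iff {W : Type} (R : W → W → Prop) (V : ℕ → W → Prop) (φ ψ : MForm ℕ) (w : W) :
    sat R V (φ.iff ψ) w ↔ (sat R V φ w ↔ sat R V ψ w) := by
  simp only [MForm.iff, sat_and, sat_imp]; tauto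

theorem sat_dia {W : Type} (R : W → W → Prop) (V : ℕ → W → Prop) (φ : MForm ℕ) (w : W) :
    sat R V φ.dia w ↔ ∃ u, R w u ∧ sat R V φ u := by
  simp only [MForm.dia, sat]; push Not; rfl

theorem logicOf_normal {W : Type} (R : W → W → Prop) : IsNormal (logicOf R) where
  taut φ h V w := h (fun ψ => sat R V ψ w) (fun _ => Iff.rfl) (fun _ _ => Iff.rfl)
  k φ ψ V w := by
    rw [sat_imp, sat_imp]
    intro h1 h2 u hu
    exact (sat_imp R V φ ψ u).1 (h1 u hu) (h2 u hu)
  mp φ ψ h1 h2 V w := (sat_imp R V φ ψ w).1 (h2 V w) (h1 V w)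
  nec φ h V w := fun u _ => h V u
  subst σ φ h V w := (sat_subst R V σ φ w).2 (h _ w)

/-! ## The frame -/

/-- The worlds: a root, a point for each name, and a top point. -/
inductive World : Type where
  | root : World
  | leaf (a : ℕ) : World
  | top : World

/-- The partial order: root below everything, the point of each name below the top. -/
def Le : World → World → Prop
  | .root, _ => True
  | .leaf a, .leaf b => a = b
  | .leaf _, .top => True
  | .top, .top => True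
  | _, _ => False

theorem le_refl (w : World) : Le w w := by cases w <;> simp [Le]

theorem le_trans' (u v w : World) (h1 : Le u v) (h2 : Le v w) : Le u w := by
  cases u <;> cases v <;> cases w <;> simp_all [Le]

theorem le_top (w : World) : Le w .top := by cases w <;> simp [Le]

/-- The height of a world. -/
def ht : World → ℕ
  | .root => 2
  | .leaf _ => 1
  | .top => 0

theorem ht_lt {u v : World} (h : Le u v) (hne : v ≠ u) : ht v < ht u := by
  cases u <;> cases v <;> simp_all [Le, ht]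

/-- The Grzegorczyk axiom `□(□(p → □p) → p) → p`. -/
def grzAx : MForm ℕ :=
  MForm.imp (.box (MForm.imp (.box (MForm.imp (.var 0) (.box (.var 0)))) (.var 0))) (.var 0)

/-- `□p → p` -/
def axT : MForm ℕ := MForm.imp (.box (.var 0)) (.var 0)
/-- `□p → □□p` -/
def ax4 : MForm ℕ := MForm.imp (.box (.var 0)) (.box (.box (.var 0)))
/-- `◇□p → □◇p` -/
def axG : MForm ℕ := MForm.imp (MForm.dia (.box (.var 0))) (.box (MForm.dia (.var 0)))

/-- Grzegorczyk's logic. -/
def Grz : Set (MForm ℕ) := smallestNormal {grzAx}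

/-- The logic `S4.2`. -/
def S42 : Set (MForm ℕ) := smallestNormal {axT, ax4, axG}

theorem grz_valid : grzAx ∈ logicOf Le := by
  intro V w
  rw [grzAx, sat_imp]
  intro h
  have key : ∀ n, ∀ u, Le w u → ht u ≤ n → V 0 u := by
    intro n
    induction n with
    | zero =>
      intro u hu hn
      have h1 := (sat_imp _ _ _ _ _).1 (h u hu)
      refine h1 ?_
      intro u1 hu1
      rw [sat_imp]
      intro h2 u2 hu2
      by_cases he : u2 = u1
      · rw [he]; exact h2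
      · exfalso
        have h3 := ht_lt hu2 he
        by_cases he' : u1 = u
        · rw [he'] at h3; omega
        · have := ht_lt hu1 he'; omega
    | succ n ih =>
      intro u hu hn
      have h1 := (sat_imp _ _ _ _ _).1 (h u hu)
      refine h1 ?_
      intro u1 hu1
      rw [sat_imp]
      intro h2 u2 hu2
      by_cases he : u2 = u1
      · rw [he]; exact h2
      · have h3 := ht_lt hu2 he
        have h4 : ht u1 ≤ ht u := by
          by_cases he' : u1 = u
          · rw [he']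
          · exact (ht_lt hu1 he').le
        exact ih u2 (le_trans' _ _ _ hu (le_trans' _ _ _ hu1 hu2)) (by omega)
  exact key (ht w) w (le_refl w) le_rfl

theorem s42_valid : ({axT, ax4, axG} : Set (MForm ℕ)) ⊆ logicOf Le := by
  rintro φ (rfl | rfl | rfl) V w
  · rw [axT, sat_imp]
    intro h
    exact h w (le_refl w)
  · rw [ax4, sat_imp]
    intro h u hu v hv
    exact h v (le_trans' _ _ _ hu hv)
  · rw [axG, sat_imp, sat_dia]
    rintro ⟨u, hu, h⟩ v hv
    rw [sat_dia]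
    exact ⟨.top, le_top v, h .top (le_top u)⟩

theorem Grz_subset : Grz ⊆ logicOf Le := fun φ h =>
  h _ (logicOf_normal Le) (by rintro _ rfl; exact grz_valid)

theorem S42_subset : S42 ⊆ logicOf Le := fun φ h => h _ (logicOf_normal Le) s42_valid

/-! ## Faithfulness -/

/-- The valuation on the frame. -/
def val (pv : ℕ → ℕ) (v : LForm → Prop) (p : ℕ) : World → Prop
  | .root => ∃ b, pv b = p ∧ ¬ v (.eps b b)
  | .leaf a => ∃ b, pv b = p ∧ v (.eps a b)
  | .top => False

theorem truth {pv : ℕ → ℕ} (hpv : Function.Injective pv) {v : LForm → Prop} (hv : IsVal v)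
    (φ : LForm) : sat Le (val pv v) (trans F0 pv φ) .root ↔ v φ := by
  have h1 : ∀ b, val pv v (pv b) .root ↔ ¬ v (.eps b b) := by
    intro b
    constructor
    · rintro ⟨c, hc, h⟩
      rw [← hpv hc]; exact h
    · intro h; exact ⟨b, rfl, h⟩
  have h2 : ∀ a b, val pv v (pv b) (.leaf a) ↔ v (.eps a b) := by
    intro a b
    constructor
    · rintro ⟨c, hc, h⟩
      rw [← hpv hc]; exact h
    · intro h; exact ⟨b, rfl, h⟩
  have h3 : ∀ b, ¬ val pv v b .top := fun b h => h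
  induction φ with
  | neg φ ih => rw [hv.neg]; exact not_congr ih
  | or φ ψ ih1 ih2 => rw [hv.or]; exact or_congr ih1 ih2
  | eps a b =>
    rw [trans_eps]
    simp only [sat_and, sat, sat_iff, sat_dia, h1]
    constructor
    · rintro ⟨ha, (⟨hb, hab⟩ | ⟨hb, u, -, hu1, hu2⟩)⟩
      · push Not at ha hb
        have h4 := hab (.leaf a) trivial
        rw [h2, h2] at h4
        exact h4.1 ha
      · push Not at ha
        cases u with
        | root =>
          rw [h1] at hu1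
          exact absurd ha hu1
        | leaf c =>
          rw [h2] at hu1 hu2
          exact hv.ax2 a c b (hv.ax3 c a a hu1 ha) hu2
        | top => exact (h3 _ hu1).elim
    · intro hab
      have haa := hv.ax1 a b hab
      refine ⟨not_not.2 haa, ?_⟩
      by_cases hb : v (.eps b b)
      · left
        refine ⟨not_not.2 hb, ?_⟩
        have hba := hv.ax3 a b b hab hb
        intro u _
        cases u with
        | root => rw [h1, h1]; tauto
        | leaf c =>
          rw [h2, h2]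
          exact ⟨fun h => hv.ax2 c a b h hab, fun h => hv.ax2 c b a h hba⟩
        | top => exact ⟨fun h => (h3 _ h).elim, fun h => (h3 _ h).elim⟩
      · right
        exact ⟨hb, .leaf a, trivial, (h2 _ _).2 haa, (h2 _ _).2 hab⟩

/-- For every normal modal logic `Λ` of the frame above, `t_F` embeds `L1` in `Λ`. -/
theorem embeds {Λ : Set (MForm ℕ)} (hΛ : IsNormal Λ) (hsub : Λ ⊆ logicOf Le) {pv : ℕ → ℕ}
    (hpv : Function.Injective pv) (φ : LForm) : L1 φ ↔ trans F0 pv φ ∈ Λ := by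
  constructor
  · exact sound hΛ pv
  · intro h
    by_contra hφ
    obtain ⟨v, hv, hvφ⟩ := exists_val hφ
    exact hvφ ((truth hpv hv φ).1 (hsub h _ _))

end Pool.Agent.X228.Ontology
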